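import Pool.Agent.MP_5e38ef_lc.Spectral

namespace Pool.Agent.MP_5e38ef_lc
open Finset

set_option linter.unusedSectionVars false

/-- The sign of a bit. -/
def sgn (b : Bool) : ℝ := if b then -1 else 1

lemma sgn_not (b : Bool) : sgn (!b) = -sgn b := by cases b <;> simp [sgn]

lemma abs_sgn (b : Bool) : |sgn b| = 1 := by cases b <;> simp [sgn]

lemma sgn_mul_self (b : Bool) : sgn b * sgn b = 1 := by cases b <;> simp [sgn]

section Signs
variable {C : Type} [Fintype C] [DecidableEq C]

lemma prod_flip (g : C → Bool) (κ : C) (L : List C) :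
    (L.map fun x => sgn (Function.update g κ (!g κ) x)).prod =
      (-1) ^ L.count κ * (L.map fun x => sgn (g x)).prod := by
  induction L with
  | nil => simp
  | cons x L ih =>
    rw [List.map_cons, List.prod_cons, ih, List.map_cons, List.prod_cons, List.count_cons]
    by_cases h : x = κ
    · subst h
      simp [sgn_not, pow_succ]
      ring
    · simp [h]
      ring

lemma sum_prod_eq_zero (L : List C) (κ : C) (h : L.count κ = 1) :
    ∑ g : C → Bool, (L.map fun x => sgn (g x)).prod = 0 := by
  have hinv : Function.Involutive (fun g : C → Bool => Function.update g κ (!g κ)) := by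
    intro g; simp
  have h1 := Equiv.sum_comp hinv.toPerm (fun g => (L.map fun x => sgn (g x)).prod)
  simp only [Function.Involutive.coe_toPerm, prod_flip, h, pow_one] at h1
  rw [← mul_sum] at h1
  linarith

lemma abs_prod_sgn (g : C → Bool) (L : List C) : |(L.map fun x => sgn (g x)).prod| = 1 := by
  induction L with
  | nil => simp
  | cons x L ih => rw [List.map_cons, List.prod_cons, abs_mul, ih, abs_sgn, one_mul]

/-- `lam` to the number of repeated entries. -/
noncomputable def psi (lam : ℝ) : List C → ℝ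
  | [] => 1
  | x :: L => psi lam L * if x ∈ L then lam else 1

lemma psi_pos {lam : ℝ} (h : 0 < lam) (L : List C) : 0 < psi lam L := by
  induction L with
  | nil => simp [psi]
  | cons x L ih => rw [psi]; split_ifs <;> positivity

lemma psi_eq (lam : ℝ) (L : List C) : psi lam L * lam ^ L.toFinset.card = lam ^ L.length := by
  induction L with
  | nil => simp [psi]
  | cons x L ih =>
    rw [psi, List.toFinset_cons, List.length_cons, pow_succ, ← ih]
    by_cases h : x ∈ L
    · rw [if_pos h, insert_eq_of_mem (List.mem_toFinset.2 h)]; ring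
    · rw [if_neg h, card_insert_of_notMem (by simpa using h)]; ring

lemma sum_prod_le {lam : ℝ} (hl : 1 ≤ lam) (L : List C) (p : ℕ) (hL : L.length = 2 * p) :
    |∑ g : C → Bool, (L.map fun x => sgn (g x)).prod| ≤
      Fintype.card (C → Bool) * (psi lam L / lam ^ p) := by
  have hl0 : 0 < lam := by linarith
  by_cases h : ∃ κ, L.count κ = 1
  · obtain ⟨κ, hκ⟩ := h
    rw [sum_prod_eq_zero L κ hκ, abs_zero]
    have := psi_pos hl0 L
    positivity
  · push Not at h
    have h1 : 2 * L.toFinset.card ≤ L.length := by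
      rw [← List.sum_toFinset_count_eq_length, mul_comm, ← smul_eq_mul, ← sum_const]
      refine sum_le_sum (fun x hx => ?_)
      have h2 := List.count_pos_iff.2 (List.mem_toFinset.1 hx)
      have := h x
      omega
    have h2 : lam ^ p ≤ psi lam L := by
      have h3 := psi_eq lam L
      have h4 : lam ^ p * lam ^ L.toFinset.card ≤ lam ^ L.length := by
        rw [← pow_add]; exact pow_le_pow_right₀ hl (by omega)
      rw [← h3] at h4
      exact le_of_mul_le_mul_right h4 (by positivity)
    calc _ ≤ ∑ g : C → Bool, |(L.map fun x => sgn (g x)).prod| := abs_sum_le_sum_abs _ _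
      _ = Fintype.card (C → Bool) := by simp [abs_prod_sgn]
      _ ≤ _ := le_mul_of_one_le_right (by positivity) ((one_le_div (by positivity)).2 h2)

end Signs

lemma sum_update {I A : Type} [Fintype I] [DecidableEq I] [Fintype A] [DecidableEq A]
    (c : I) (F : (I → A) → ℝ) :
    ∑ s : I → A, ∑ v : A, F (Function.update s c v) = Fintype.card A * ∑ s, F s := by
  have hinv : Function.Involutive
      (fun p : (I → A) × A => (Function.update p.1 c p.2, p.1 c)) := by
    rintro ⟨s, v⟩; simp
  have h1 := Equiv.sum_comp hinv.toPerm (fun p => F p.1)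
  simp only [Function.Involutive.coe_toPerm, Fintype.sum_prod_type] at h1
  rw [h1]
  simp [mul_sum]

section Core
variable {Z I C : Type} [Fintype Z] [DecidableEq Z] [Fintype I] [DecidableEq I]
  [Fintype C] [DecidableEq C]

/-- A query is fresh for a list of queries. -/
def Fresh {m : ℕ} (cls : (I → Fin m) → Z → C) (l : List Z) (z : Z) : Prop :=
  (∀ s, cls s z ∉ l.map (cls s)) ∨ ∃ c : I,
    (∀ z' ∈ l, ∀ s v, cls (Function.update s c v) z' = cls s z') ∧
      ∀ s, Function.Injective fun v => cls (Function.update s c v) z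

lemma fresh_le {m : ℕ} (hm : 0 < m) (cls : (I → Fin m) → Z → C) (l : List Z) (z : Z)
    (hz : Fresh cls l z) {lam : ℝ} (hl : 0 < lam) :
    ∑ s, psi lam (l.map (cls s)) * (if cls s z ∈ l.map (cls s) then 1 else 0) ≤
      l.length / m * ∑ s, psi lam (l.map (cls s)) := by
  have hmR : (0 : ℝ) < m := by exact_mod_cast hm
  have hS : 0 ≤ ∑ s : I → Fin m, psi lam (l.map (cls s)) :=
    sum_nonneg fun s _ => (psi_pos hl _).le
  rcases hz with hz | ⟨c, h1, h2⟩
  · simp only [hz, if_false, mul_zero, sum_const_zero]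
    positivity
  · have h3 := sum_update c fun s : I → Fin m =>
      psi lam (l.map (cls s)) * (if cls s z ∈ l.map (cls s) then (1 : ℝ) else 0)
    rw [Fintype.card_fin] at h3
    rw [div_mul_eq_mul_div, le_div_iff₀ hmR, mul_comm, ← h3, mul_sum]
    refine sum_le_sum (fun s _ => ?_)
    have h4 : ∀ v, l.map (cls (Function.update s c v)) = l.map (cls s) := fun v =>
      List.map_congr_left (fun z' hz' => h1 z' hz' s v)
    simp only [h4]
    rw [← mul_sum, mul_comm]
    refine mul_le_mul_of_nonneg_right ?_ (psi_pos hl _).le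
    rw [sum_boole]
    have h5 : (univ.filter fun v => cls (Function.update s c v) z ∈ l.map (cls s)).card ≤
        (l.map (cls s)).toFinset.card := by
      refine card_le_card_of_injOn (fun v => cls (Function.update s c v) z) ?_ (h2 s).injOn
      intro v hv
      simpa using hv
    have h6 := List.toFinset_card_le (l.map (cls s))
    rw [List.length_map] at h6
    exact_mod_cast h5.trans h6

variable {V E : Type} [Fintype V] [DecidableEq V] [Fintype E]

lemma step_le {m : ℕ} (hm : 0 < m) (cls : (I → Fin m) → Z → C) (src : E → V) (zq : E → Z)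
    (a : ℝ) (ha : 0 < a) (μ Θ Q : ℕ)
    (hμ : ∀ x z, (univ.filter fun e => src e = x ∧ zq e = z).card ≤ μ)
    (hO : ∀ l : List Z, l.length < Q → ∃ O : Finset Z, O.card ≤ Θ ∧ ∀ z ∉ O, Fresh cls l z)
    {η : ℝ} (hη : (Q : ℝ) / m + Θ * μ / a ≤ η) (hη0 : 0 < η) (hη1 : η ≤ 1) (x : V) (l : List E)
    (hl : l.length < Q) :
    ∑ e ∈ univ.filter (fun e => src e = x),
      (∑ s, psi (1 / η) ((e :: l).map fun e => cls s (zq e))) /
        ((univ.filter fun e => src e = x).card + a) ≤
      2 * ∑ s, psi (1 / η) (l.map fun e => cls s (zq e)) := by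
  classical
  set lam := 1 / η with hlam
  have hl0 : 0 < lam := by positivity
  have hmR : (0 : ℝ) < m := by exact_mod_cast hm
  obtain ⟨O, hO1, hO2⟩ := hO (l.map zq) (by simpa using hl)
  set P := ∑ s : I → Fin m, psi lam (l.map fun e => cls s (zq e)) with hP
  have hP0 : 0 ≤ P := sum_nonneg fun s _ => (psi_pos hl0 _).le
  set D := (univ.filter fun e => src e = x) with hD
  have hmap : ∀ s, (l.map zq).map (cls s) = l.map fun e => cls s (zq e) := by
    intro s; rw [List.map_map]; rfl
  have h1 : ∀ e : E, ∑ s, psi lam ((e :: l).map fun e => cls s (zq e)) ≤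
      P + lam * ((Q : ℝ) / m + if zq e ∈ O then 1 else 0) * P := by
    intro e
    have h2 : ∑ s : I → Fin m, psi lam (l.map fun e => cls s (zq e)) *
        (if cls s (zq e) ∈ l.map (fun e => cls s (zq e)) then (1 : ℝ) else 0) ≤
        ((Q : ℝ) / m + if zq e ∈ O then 1 else 0) * P := by
      by_cases he : zq e ∈ O
      · rw [if_pos he]
        calc _ ≤ P := sum_le_sum fun s _ => by
              have := psi_pos hl0 (l.map fun e => cls s (zq e))
              split_ifs <;> linarith
          _ ≤ _ := le_mul_of_one_le_left hP0 (by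
              have : (0 : ℝ) ≤ Q / m := by positivity
              linarith)
      · rw [if_neg he, add_zero]
        have h3 := fresh_le hm cls (l.map zq) (zq e) (hO2 _ he) hl0
        simp only [hmap, List.length_map] at h3
        refine h3.trans (mul_le_mul_of_nonneg_right ?_ hP0)
        exact div_le_div_of_nonneg_right (by exact_mod_cast hl.le) hmR.le
    calc _ ≤ ∑ s : I → Fin m, (psi lam (l.map fun e => cls s (zq e)) +
          lam * (psi lam (l.map fun e => cls s (zq e)) *
            (if cls s (zq e) ∈ l.map (fun e => cls s (zq e)) then (1 : ℝ) else 0))) := by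
          refine sum_le_sum (fun s _ => ?_)
          rw [List.map_cons, psi]
          have := psi_pos hl0 (l.map fun e => cls s (zq e))
          split_ifs <;> nlinarith
      _ ≤ _ := by
          rw [sum_add_distrib, ← mul_sum, mul_assoc]
          exact add_le_add le_rfl (mul_le_mul_of_nonneg_left h2 hl0.le)
  have h3 : ((D.filter fun e => zq e ∈ O).card : ℝ) ≤ Θ * μ := by
    have h4 : (D.filter fun e => zq e ∈ O).card ≤ μ * O.card := by
      refine card_le_mul_card_image_of_maps_to (f := zq) (fun e he => (mem_filter.1 he).2) μ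
        (fun z _ => le_trans (card_le_card ?_) (hμ x z))
      intro e he
      simp only [hD, mem_filter, mem_univ, true_and] at he ⊢
      exact ⟨he.1.1, he.2⟩
    have h5 : μ * O.card ≤ Θ * μ := by rw [mul_comm]; exact Nat.mul_le_mul_right _ hO1
    exact_mod_cast h4.trans h5
  have hd0 : (0 : ℝ) < D.card + a := by positivity
  rw [← sum_div, div_le_iff₀ hd0]
  refine (sum_le_sum fun e _ => h1 e).trans ?_
  rw [sum_add_distrib, ← sum_mul, ← mul_sum, sum_add_distrib, sum_boole, sum_const, sum_const,
    nsmul_eq_mul, nsmul_eq_mul]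
  have h6 : (D.card : ℝ) * (Q / m) + (D.filter fun e => zq e ∈ O).card ≤ η * (D.card + a) := by
    have h7 : (Θ : ℝ) * μ = Θ * μ / a * a := by field_simp
    have h8 : (0 : ℝ) ≤ Θ * μ / a := by positivity
    have h9 : (0 : ℝ) ≤ Q / m := by positivity
    have h10 : (0 : ℝ) ≤ D.card := Nat.cast_nonneg _
    calc _ ≤ (D.card : ℝ) * (Q / m) + Θ * μ / a * a := by linarith
      _ ≤ (Q / m + Θ * μ / a) * (D.card + a) := by
          nlinarith [mul_nonneg h8 h10, mul_nonneg h9 ha.le]
      _ ≤ _ := mul_le_mul_of_nonneg_right hη hd0.le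
  have h11 : lam * ((D.card : ℝ) * (Q / m) + (D.filter fun e => zq e ∈ O).card) ≤ D.card + a := by
    calc _ ≤ lam * (η * (D.card + a)) := mul_le_mul_of_nonneg_left h6 hl0.le
      _ = _ := by rw [hlam]; field_simp
  nlinarith [mul_le_mul_of_nonneg_right h11 hP0]

theorem core {m : ℕ} (hm : 0 < m) (cls : (I → Fin m) → Z → C) (src : E → V) (rev : E → E)
    (hrev : Function.Involutive rev) (zq : E → Z) (hzq : ∀ e, zq (rev e) = zq e)
    (c : E → Bool) (hc : ∀ e, c (rev e) = c e) (a : ℝ) (ha : 0 < a) (μ Θ i : ℕ)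
    (hμ : ∀ x z, (univ.filter fun e => src e = x ∧ zq e = z).card ≤ μ)
    (hO : ∀ l : List Z, l.length < 2 ^ (i + 1) →
      ∃ O : Finset Z, O.card ≤ Θ ∧ ∀ z ∉ O, Fresh cls l z)
    {η : ℝ} (hη : ((2 ^ (i + 1) : ℕ) : ℝ) / m + Θ * μ / a ≤ η) (hη0 : 0 < η) (hη1 : η ≤ 1)
    (B K : ℝ) (hB : 0 < B)
    (hact : ∀ (s : I → Fin m) (g : C → Bool), ∃ f : V → ℝ,
      ∑ x, ((univ.filter fun e => src e = x).card + a) * f x * f x ≤ K ∧
      B ≤ ∑ e, sgn (c e) * sgn (g (cls s (zq e))) * f (src e) * f (src (rev e))) :
    (B / K) ^ 2 ^ (i + 1) ≤ Fintype.card V * (4 * η) ^ 2 ^ i := by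
  classical
  set d : V → ℝ := fun x => (univ.filter fun e => src e = x).card + a with hd
  have hd0 : ∀ x, 0 < d x := fun x => by positivity
  set β : (I → Fin m) × (C → Bool) → E → ℝ :=
    fun ω e => sgn (c e) * sgn (ω.2 (cls ω.1 (zq e))) with hβ
  set lam := 1 / η with hlam
  have hl1 : 1 ≤ lam := by rw [hlam, le_div_iff₀ hη0]; linarith
  have hl0 : 0 < lam := by linarith
  set G : ℝ := (Fintype.card (C → Bool) : ℝ) with hG
  have h1 : ∀ ω, (B / K) ^ 2 ^ (i + 1) ≤
      ∑ x, (opT src rev d (β ω))^[2 ^ (i + 1)] (Pi.single x 1) x := by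
    intro ω
    obtain ⟨f, hf1, hf2⟩ := hact ω.1 ω.2
    exact spectral src rev hrev d hd0 (β ω) (fun e => by simp only [hβ, hc, hzq]) f B K hB hf1
      hf2 i
  have h2 : ∀ x, ∑ ω, (opT src rev d (β ω))^[2 ^ (i + 1)] (Pi.single x 1) x ≤
      2 ^ 2 ^ (i + 1) * (G / lam ^ 2 ^ i * Fintype.card (I → Fin m)) := by
    intro x
    have h3 : ∀ ω, (opT src rev d (β ω))^[2 ^ (i + 1)] (Pi.single x 1) x =
        ws src rev d (fun y l' => (List.map (β ω) l').prod * (Pi.single x 1 : V → ℝ) y)
          (2 ^ (i + 1)) x [] := by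
      intro ω; rw [← ws_opT]; simp
    simp only [h3]
    rw [ws_sum]
    have h4 := ws_le src rev d hd0
      (fun y l' => ∑ ω, (List.map (β ω) l').prod * (Pi.single x 1 : V → ℝ) y)
      (fun l => G / lam ^ 2 ^ i * ∑ s, psi lam (l.map fun e => cls s (zq e))) (2 ^ (i + 1)) 2
      (by norm_num) ?_ ?_ (2 ^ (i + 1)) x [] (by simp)
    · simpa [psi] using h4
    · intro y l hl
      rw [← sum_mul, Fintype.sum_prod_type, mul_sum]
      have h5 : |∑ s : I → Fin m, ∑ g : C → Bool, (List.map (β (s, g)) l).prod| ≤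
          ∑ s, G / lam ^ 2 ^ i * psi lam (l.map fun e => cls s (zq e)) := by
        refine (abs_sum_le_sum_abs _ _).trans (sum_le_sum fun s _ => ?_)
        have h6 : ∀ g : C → Bool, (List.map (β (s, g)) l).prod =
            (l.map fun e => sgn (c e)).prod *
              ((l.map fun e => cls s (zq e)).map fun x => sgn (g x)).prod := by
          intro g
          rw [List.map_map, ← List.prod_map_mul]
          rfl
        simp only [h6]
        rw [← mul_sum, abs_mul]
        have h7 : |(l.map fun e => sgn (c e)).prod| = 1 := by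
          clear h6 hl
          induction l with
          | nil => simp
          | cons x L ih => rw [List.map_cons, List.prod_cons, abs_mul, ih, abs_sgn, one_mul]
        rw [h7, one_mul]
        refine (sum_prod_le hl1 _ (2 ^ i) (by rw [List.length_map, hl]; ring)).trans (le_of_eq ?_)
        rw [hG]; ring
      have h8 : |(Pi.single x 1 : V → ℝ) y| ≤ 1 := by
        rw [Pi.single_apply]; split_ifs <;> simp
      calc _ ≤ |(∑ s : I → Fin m, ∑ g : C → Bool, (List.map (β (s, g)) l).prod) *
            (Pi.single x 1 : V → ℝ) y| := le_abs_self _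
        _ ≤ _ := by
          rw [abs_mul]
          exact (mul_le_of_le_one_right (abs_nonneg _) h8).trans h5
    · intro y l hl
      have h5 := step_le hm cls src zq a ha μ Θ (2 ^ (i + 1)) hμ hO hη hη0 hη1 y l hl
      simp only [mul_div_assoc]
      rw [← mul_sum, mul_left_comm]
      exact mul_le_mul_of_nonneg_left h5 (by positivity)
  have h3 := sum_le_sum (s := univ) fun ω _ => h1 ω
  rw [sum_comm] at h3
  have h4 := h3.trans (sum_le_sum fun x _ => h2 x)
  rw [sum_const, sum_const, card_univ, card_univ, nsmul_eq_mul, nsmul_eq_mul, Fintype.card_prod,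
    Nat.cast_mul, ← hG] at h4
  have hG0 : 0 < G := by rw [hG]; exact_mod_cast Fintype.card_pos
  have hI0 : (0 : ℝ) < Fintype.card (I → Fin m) := by
    have : Nonempty (Fin m) := ⟨⟨0, hm⟩⟩
    exact_mod_cast Fintype.card_pos
  have h5 : (2 : ℝ) ^ 2 ^ (i + 1) / lam ^ 2 ^ i = (4 * η) ^ 2 ^ i := by
    rw [pow_succ 2 i, mul_comm (2 ^ i), pow_mul, ← div_pow, hlam]
    congr 1
    field_simp
    norm_num
  refine le_of_mul_le_mul_left (a := (Fintype.card (I → Fin m) : ℝ) * G) ?_ (by positivity)
  refine h4.trans (le_of_eq ?_)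
  rw [← h5]
  ring

end Core

end Pool.Agent.MP_5e38ef_lc
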