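import Mathlib

namespace Pool.Agent.MP_5e38ef_lc

/-- The words seen by the first `t` adaptive probes (latest first): each probe reads the cell
whose address `addr` computes from the words seen so far. -/
def reads {S W : ℕ} (addr : List (Fin W) → Fin S) (M : Fin S → Fin W) : ℕ → List (Fin W)
  | 0 => []
  | t + 1 => M (addr (reads addr M t)) :: reads addr M t

/-- A cell-probe data structure with `S` cells of `w` bits and `t` adaptive probes per query
solves `(k+1)`-SUM-Indexing for `k` arrays of length `n` with entries in `[0, U]` and queries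
in `[0, k * U]`. -/
def Solves (k n U S w t : ℕ) : Prop :=
  ∃ (pre : (Fin k → Fin n → ℤ) → Fin S → Fin (2 ^ w))
    (addr : ℤ → List (Fin (2 ^ w)) → Fin S) (out : ℤ → List (Fin (2 ^ w)) → Bool),
    ∀ A : Fin k → Fin n → ℤ, (∀ a i, 0 ≤ A a i ∧ A a i ≤ U) →
      ∀ z : ℤ, 0 ≤ z → z ≤ k * U →
        (out z (reads (addr z) (pre A) t) = true ↔ ∃ x : Fin k → Fin n, z = ∑ a, A a (x a))

end Pool.Agent.MP_5e38ef_lc
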