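import Pool.Agent.MP_5e38ef_lc.Probe

namespace Pool.Agent.MP_5e38ef_lc
open Finset

variable {k n n' m : ℕ}

lemma sum_lt (hk : 0 < k) (s : Fin k × Fin n → Fin m) (x : Fin k → Fin n) :
    ∑ a, (s (a, x a) : ℕ) < k * m := by
  have : Nonempty (Fin k) := ⟨⟨0, hk⟩⟩
  calc _ < ∑ _a : Fin k, m := sum_lt_sum_of_nonempty univ_nonempty fun a _ => (s _).2
    _ = _ := by simp

/-- The class of a query: its last index and the sum of the hidden offsets. -/
def cls (hk : 0 < k) (s : Fin k × Fin n → Fin m) (z : Fin n' × (Fin k → Fin n)) :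
    Fin n' × Fin (k * m) := (z.1, ⟨∑ a, (s (a, z.2 a) : ℕ), sum_lt hk s z.2⟩)

lemma fresh_cls (hk : 0 < k) (Q : ℕ) (l : List (Fin n' × (Fin k → Fin n))) (hl : l.length < Q) :
    ∃ O : Finset (Fin n' × (Fin k → Fin n)), O.card ≤ Q ^ (k + 1) ∧
      ∀ z ∉ O, Fresh (cls (m := m) hk) l z := by
  classical
  refine ⟨(l.map Prod.fst).toFinset ×ˢ Fintype.piFinset fun a => (l.map fun z => z.2 a).toFinset,
    ?_, ?_⟩
  · rw [card_product, Fintype.card_piFinset, pow_succ']
    refine Nat.mul_le_mul ((List.toFinset_card_le _).trans (by simp; omega)) ?_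
    refine (prod_le_pow_card _ _ Q fun a _ => ?_).trans (by simp)
    exact (List.toFinset_card_le _).trans (by simp; omega)
  · intro z hz
    rw [mem_product, not_and_or] at hz
    rcases hz with hz | hz
    · left
      intro s hs
      obtain ⟨z', hz', h⟩ := List.mem_map.1 hs
      have h1 : (cls hk s z').1 = (cls hk s z).1 := congrArg Prod.fst h
      exact hz (List.mem_toFinset.2 (List.mem_map.2 ⟨z', hz', h1⟩))
    · right
      rw [Fintype.mem_piFinset, not_forall] at hz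
      obtain ⟨a, ha⟩ := hz
      refine ⟨(a, z.2 a), fun z' hz' s v => ?_, fun s v v' h => ?_⟩
      · refine Prod.ext rfl (Fin.ext ?_)
        simp only [cls]
        refine sum_congr rfl fun a' _ => ?_
        rw [Function.update_of_ne]
        intro h
        obtain ⟨rfl, h⟩ := Prod.mk.inj h
        exact ha (List.mem_toFinset.2 (List.mem_map.2 ⟨z', hz', h⟩))
      · have h1 := congrArg (fun p => (p.2 : ℕ)) h
        have h2 : ∀ u : Fin m, ∑ a', (Function.update s (a, z.2 a) u (a', z.2 a') : ℕ) =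
            u + ∑ a' ∈ univ.erase a, (s (a', z.2 a') : ℕ) := by
          intro u
          rw [← add_sum_erase _ _ (mem_univ a), Function.update_self]
          congr 1
          refine sum_congr rfl fun a' ha' => ?_
          rw [Function.update_of_ne]
          intro h
          exact (mem_erase.1 ha').1 (Prod.mk.inj h).1
        simp only [cls, h2] at h1
        exact Fin.ext (by omega)

/-- The last array. -/
def lastArr (hΓ : 0 < k * m) (n : ℕ) (g : Fin n' × Fin (k * m) → Bool) (x : ℕ) : ℕ :=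
  if h : x / (k * m) < n' then
    (if g (⟨x / (k * m), h⟩, ⟨x % (k * m), Nat.mod_lt _ hΓ⟩) = true then
      x / (k * m) * n ^ k * (2 * (k * m) + 2) + (k * m - x % (k * m)) else k * m + 1)
  else k * m + 1

/-- The arrays of the hard instance. -/
def arr (hΓ : 0 < k * m) (s : Fin k × Fin n → Fin m) (g : Fin n' × Fin (k * m) → Bool) :
    Fin (k + 1) → Fin n → ℕ :=
  Fin.lastCases (fun x => lastArr hΓ n g x)
    fun a x => x * n ^ (a : ℕ) * (2 * (k * m) + 2) + s (a, x)

/-- The integer that a query stands for. -/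
def qry (m : ℕ) (z : Fin n' × (Fin k → Fin n)) : ℕ :=
  (z.1 * n ^ k + ∑ a, (z.2 a : ℕ) * n ^ (a : ℕ)) * (2 * (k * m) + 2) + k * m

lemma digits_lt (x : Fin k → Fin n) : ∑ a, (x a : ℕ) * n ^ (a : ℕ) < n ^ k := by
  rw [← finFunctionFinEquiv_apply]
  exact (finFunctionFinEquiv x).2

lemma divmod_eq {a b c d B : ℕ} (hb : b < B) (hd : d < B) (h : a * B + b = c * B + d) :
    a = c ∧ b = d := by
  have hB : 0 < B := by omega
  have h1 := congrArg (· / B) h
  have h2 := congrArg (· % B) h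
  simp only [mul_comm _ B, Nat.mul_add_div hB, Nat.div_eq_of_lt hb, Nat.div_eq_of_lt hd,
    Nat.mul_add_mod, Nat.mod_eq_of_lt hb, Nat.mod_eq_of_lt hd] at h1 h2
  exact ⟨by omega, h2⟩

lemma sum_arr (hΓ : 0 < k * m) (s : Fin k × Fin n → Fin m) (g : Fin n' × Fin (k * m) → Bool)
    (x : Fin (k + 1) → Fin n) :
    ∑ a, arr hΓ s g a (x a) = (∑ a : Fin k, (x a.castSucc : ℕ) * n ^ (a : ℕ)) * (2 * (k * m) + 2) +
      ∑ a : Fin k, (s (a, x a.castSucc) : ℕ) + lastArr hΓ n g (x (Fin.last k)) := by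
  rw [Fin.sum_univ_castSucc]
  simp only [arr, Fin.lastCases_castSucc, Fin.lastCases_last, sum_add_distrib, sum_mul]

lemma arr_iff (hk : 0 < k) (hΓ : 0 < k * m) (hn : n' * (k * m) ≤ n) (s : Fin k × Fin n → Fin m)
    (g : Fin n' × Fin (k * m) → Bool) (z : Fin n' × (Fin k → Fin n)) :
    (∃ x : Fin (k + 1) → Fin n, qry m z = ∑ a, arr hΓ s g a (x a)) ↔ g (cls hk s z) = true := by
  constructor
  · rintro ⟨x, hx⟩
    rw [sum_arr, qry, lastArr] at hx
    have h1 := sum_lt hk s fun a => x a.castSucc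
    have h0 := Nat.mod_lt (x (Fin.last k) : ℕ) hΓ
    split_ifs at hx with h2 h3
    · obtain ⟨h4, h5⟩ := divmod_eq (B := 2 * (k * m) + 2)
        (a := z.1 * n ^ k + ∑ a, (z.2 a : ℕ) * n ^ (a : ℕ)) (b := k * m)
        (c := x (Fin.last k) / (k * m) * n ^ k + ∑ a : Fin k, (x a.castSucc : ℕ) * n ^ (a : ℕ))
        (d := ∑ a : Fin k, (s (a, x a.castSucc) : ℕ) + (k * m - x (Fin.last k) % (k * m)))
        (by omega) (by omega) (by rw [hx]; ring)
      obtain ⟨h6, h7⟩ := divmod_eq (digits_lt _) (digits_lt fun a => x a.castSucc) h4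
      have h8 : z.2 = fun a => x a.castSucc := by
        apply finFunctionFinEquiv.injective
        apply Fin.ext
        rw [finFunctionFinEquiv_apply, finFunctionFinEquiv_apply, h7]
      rw [← h3]
      congr 1
      refine Prod.ext (Fin.ext h6) (Fin.ext ?_)
      simp only [cls, h8]
      omega
    all_goals
      have := (divmod_eq (B := 2 * (k * m) + 2)
        (a := z.1 * n ^ k + ∑ a, (z.2 a : ℕ) * n ^ (a : ℕ)) (b := k * m)
        (c := ∑ a : Fin k, (x a.castSucc : ℕ) * n ^ (a : ℕ))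
        (d := ∑ a : Fin k, (s (a, x a.castSucc) : ℕ) + (k * m + 1))
        (by omega) (by omega) (by rw [hx]; ring)).2
      omega
  · intro hg
    have h1 := sum_lt hk s z.2
    set σ := ∑ a, (s (a, z.2 a) : ℕ) with hσ
    have h2 : k * m * z.1 + σ < n := by
      have : (z.1 + 1) * (k * m) ≤ n' * (k * m) := Nat.mul_le_mul_right _ z.1.2
      nlinarith
    have h3 : (k * m * z.1 + σ) / (k * m) = z.1 := by
      rw [Nat.mul_add_div hΓ, Nat.div_eq_of_lt h1, add_zero]
    have h4 : (k * m * z.1 + σ) % (k * m) = σ := by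
      rw [Nat.mul_add_mod, Nat.mod_eq_of_lt h1]
    refine ⟨Fin.lastCases ⟨_, h2⟩ z.2, ?_⟩
    rw [sum_arr]
    simp only [Fin.lastCases_castSucc, Fin.lastCases_last, ← hσ]
    have h5 : lastArr hΓ n g (k * m * z.1 + σ) =
        z.1 * n ^ k * (2 * (k * m) + 2) + (k * m - σ) := by
      rw [lastArr, dif_pos (by rw [h3]; exact z.1.2), if_pos, h3, h4]
      rw [← hg]
      congr 1
      exact Prod.ext (Fin.ext h3) (Fin.ext h4)
    rw [h5, qry]
    have : k * m = σ + (k * m - σ) := by omega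
    nlinarith

lemma qry_le (hΓ : 0 < k * m) (hn : n' * (k * m) ≤ n) (z : Fin n' × (Fin k → Fin n)) :
    qry m z ≤ 4 * n ^ (k + 1) := by
  have h1 := digits_lt z.2
  have h2 : (z.1 + 1) * n ^ k ≤ n' * n ^ k := Nat.mul_le_mul_right _ z.1.2
  have h3 : z.1 * n ^ k + ∑ a, (z.2 a : ℕ) * n ^ (a : ℕ) + 1 ≤ n' * n ^ k := by nlinarith
  calc qry m z ≤ (z.1 * n ^ k + ∑ a, (z.2 a : ℕ) * n ^ (a : ℕ) + 1) * (2 * (k * m) + 2) := by
        rw [qry]; nlinarith
    _ ≤ n' * n ^ k * (4 * (k * m)) := Nat.mul_le_mul h3 (by omega)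
    _ = 4 * (n ^ k * (n' * (k * m))) := by ring
    _ ≤ _ := by rw [pow_succ]; gcongr

lemma arr_le (hΓ : 0 < k * m) (hn : n' * (k * m) ≤ n) (hn' : 0 < n') (s : Fin k × Fin n → Fin m)
    (g : Fin n' × Fin (k * m) → Bool) (a : Fin (k + 1)) (x : Fin n) :
    arr hΓ s g a x ≤ 4 * n ^ (k + 1) := by
  have hΓn : k * m ≤ n := le_trans (Nat.le_mul_of_pos_left _ hn') hn
  have hn0 : 0 < n := by omega
  have hp : 0 < n ^ k := by positivity
  have hb : n ^ k * (4 * (k * m)) ≤ 4 * n ^ (k + 1) := by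
    calc _ = 4 * (n ^ k * (k * m)) := by ring
      _ ≤ _ := by rw [pow_succ]; gcongr
  refine Fin.lastCases ?_ (fun a => ?_) a
  · simp only [arr, Fin.lastCases_last, lastArr]
    split_ifs with h1 h2
    · have h3 : (x / (k * m) + 1) * n ^ k ≤ n' * n ^ k := Nat.mul_le_mul_right _ h1
      calc _ ≤ (x / (k * m) + 1) * n ^ k * (2 * (k * m) + 2) := by
            have : k * m - x % (k * m) ≤ k * m := Nat.sub_le _ _
            nlinarith
        _ ≤ n' * n ^ k * (4 * (k * m)) := Nat.mul_le_mul h3 (by omega)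
        _ = 4 * (n ^ k * (n' * (k * m))) := by ring
        _ ≤ _ := by rw [pow_succ]; gcongr
    all_goals nlinarith
  · simp only [arr, Fin.lastCases_castSucc]
    have h1 : (s (a, x) : ℕ) < k * m := by
      have := (s (a, x)).2
      have hk : 0 < k := Nat.pos_of_mul_pos_right hΓ
      nlinarith
    have h2 : (x + 1) * n ^ (a : ℕ) ≤ n ^ k := by
      calc _ ≤ n * n ^ (a : ℕ) := Nat.mul_le_mul_right _ x.2
        _ = n ^ (a + 1 : ℕ) := by ring
        _ ≤ _ := Nat.pow_le_pow_right hn0 a.2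
    have h3 : 0 < n ^ (a : ℕ) := by positivity
    calc _ ≤ (x + 1) * n ^ (a : ℕ) * (2 * (k * m) + 2) := by nlinarith
      _ ≤ n ^ k * (4 * (k * m)) := Nat.mul_le_mul h2 (by omega)
      _ ≤ _ := hb

theorem instance_bound (hk : 0 < k) (hm : 0 < m) (hn : n' * (k * m) ≤ n) (hn' : 0 < n')
    {S w h : ℕ} (H : Solves (k + 1) n (4 * n ^ (k + 1)) S w (2 * h)) (i : ℕ) {η : ℝ}
    (hη : ((2 ^ (i + 1) : ℕ) : ℝ) / m + (2 ^ (i + 1)) ^ (k + 1) * S ^ h / (n' * n ^ k) ≤ η)
    (hη0 : 0 < η) (hη1 : η ≤ 1) :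
    (1 / (2 * ((2 : ℝ) ^ w) ^ h)) ^ 2 ^ (i + 1) ≤
      2 * ((S : ℝ) * 2 ^ w) ^ h * (4 * η) ^ 2 ^ i := by
  classical
  have hΓ : 0 < k * m := Nat.mul_pos hk hm
  have hn0 : 0 < n := lt_of_lt_of_le (Nat.mul_pos hn' hΓ) hn
  obtain ⟨pre, addr, out, H⟩ := H
  have : Nonempty (Fin n' × (Fin k → Fin n)) := ⟨(⟨0, hn'⟩, fun _ => ⟨0, hn0⟩)⟩
  have := probe_bound (S := S) (W := 2 ^ w) (h := h) hm (by positivity)
    (cls (n := n) (n' := n') (m := m) hk) (fun z => addr (qry m z)) (fun z => out (qry m z))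
    ((2 ^ (i + 1)) ^ (k + 1)) i (fresh_cls hk _) ?_ (η := η) (by simpa using hη) hη0 hη1
  · simpa using this
  · intro s g
    refine ⟨pre fun a x => arr hΓ s g a x, fun z => ?_⟩
    have h1 := H (fun a x => arr hΓ s g a x)
      (fun a x => ⟨by positivity, by exact_mod_cast arr_le hΓ hn hn' s g a x⟩) (qry m z)
      (by positivity) (by
        have := qry_le hΓ hn z
        exact_mod_cast this.trans (Nat.le_mul_of_pos_left _ (by omega)))
    rw [Bool.eq_iff_iff, h1, ← arr_iff hk hΓ hn]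
    exact exists_congr fun x => by exact_mod_cast Iff.rfl

end Pool.Agent.MP_5e38ef_lc
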