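import Pool.Agent.MP_5e38ef_lc.Instance

namespace Pool.Agent.MP_5e38ef_lc
open Finset Filter

theorem finite_bound {k n S w h : ℕ} (hk : 0 < k)
    (H : Solves (k + 1) n (4 * n ^ (k + 1)) S w (2 * h)) (i : ℕ)
    (h1 : 2 * (S * 2 ^ w) ^ h ≤ 2 ^ 2 ^ i)
    (h2 : k * (64 * 2 ^ (i + 1) * ((2 ^ w) ^ h) ^ 2) ≤ n) :
    n ^ (k + 1) ≤ 8192 * k * (2 ^ (i + 1)) ^ (k + 2) * ((2 ^ w) ^ h) ^ 4 * S ^ h := by
  set m := 64 * 2 ^ (i + 1) * ((2 ^ w) ^ h) ^ 2 with hm
  have hm0 : 0 < m := by positivity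
  have hΓ : 0 < k * m := Nat.mul_pos hk hm0
  set n' := n / (k * m) with hn'
  have hn'0 : 0 < n' := Nat.div_pos h2 hΓ
  have hn : n' * (k * m) ≤ n := Nat.div_mul_le_self _ _
  have hn2 : n ≤ 2 * n' * (k * m) := by
    have := Nat.lt_mul_div_succ n hΓ
    rw [← hn'] at this
    nlinarith
  have hn0 : 0 < n := lt_of_lt_of_le hΓ h2
  set W : ℝ := ((2 : ℝ) ^ w) ^ h with hW
  have hW1 : 1 ≤ W := one_le_pow₀ (one_le_pow₀ (by norm_num))
  set Q : ℝ := (2 : ℝ) ^ (i + 1) with hQ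
  have hQ0 : 0 < Q := by positivity
  have hn'R : (0 : ℝ) < n' := by exact_mod_cast hn'0
  have hnR : (0 : ℝ) < n := by exact_mod_cast hn0
  have hmR : (m : ℝ) = 64 * Q * W ^ 2 := by rw [hm]; push_cast; rfl
  set x : ℝ := Q ^ (k + 1) * S ^ h / (n' * n ^ k) with hx
  have hx0 : 0 ≤ x := by positivity
  have e1 : ((2 ^ (i + 1) : ℕ) : ℝ) / m = 1 / (64 * W ^ 2) := by
    rw [hmR]; push_cast; rw [← hQ]; field_simp
  have h3 : 1 / (32 * W ^ 2) ≤ 1 / (64 * W ^ 2) + x := by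
    by_cases hη : 1 / (64 * W ^ 2) + x ≤ 1
    · have h4 := instance_bound hk hm0 hn hn'0 H i (η := 1 / (64 * W ^ 2) + x)
        (by rw [e1]) (by positivity) hη
      have h5 : 2 * ((S : ℝ) * 2 ^ w) ^ h ≤ 2 ^ 2 ^ i := by exact_mod_cast h1
      have h6 := h4.trans (mul_le_mul_of_nonneg_right h5 (by positivity))
      rw [← mul_pow, pow_succ 2 i, mul_comm (2 ^ i), pow_mul, ← hW] at h6
      have h7 := (pow_le_pow_iff_left₀ (by positivity) (by positivity) (by positivity)).1 h6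
      have e2 : (1 / (2 * W)) ^ 2 = 8 * (1 / (32 * W ^ 2)) := by field_simp; norm_num
      linarith
    · refine le_trans ?_ (not_le.1 hη).le
      rw [div_le_one (by positivity)]
      nlinarith
  have h4 : 1 / (64 * W ^ 2) ≤ x := by
    have e2 : 1 / (32 * W ^ 2) = 2 * (1 / (64 * W ^ 2)) := by field_simp; norm_num
    linarith
  rw [hx, div_le_div_iff₀ (by positivity) (by positivity), one_mul] at h4
  have h5 : (n : ℝ) ≤ 2 * n' * (k * (64 * Q * W ^ 2)) := by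
    rw [← hmR]; exact_mod_cast hn2
  have h6 : (n : ℝ) ^ (k + 1) ≤ 8192 * k * Q ^ (k + 2) * W ^ 4 * S ^ h := by
    calc (n : ℝ) ^ (k + 1) = n * n ^ k := by ring
      _ ≤ 2 * n' * (k * (64 * Q * W ^ 2)) * n ^ k := by gcongr
      _ = 128 * k * Q * W ^ 2 * (n' * n ^ k) := by ring
      _ ≤ 128 * k * Q * W ^ 2 * (Q ^ (k + 1) * S ^ h * (64 * W ^ 2)) := by gcongr
      _ = _ := by ring
  rw [hQ, hW] at h6
  exact_mod_cast h6

lemma Solves.succ {k n U S w t : ℕ} (H : Solves k n U S w t) : Solves k n U S w (t + 1) := by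
  obtain ⟨pre, addr, out, H⟩ := H
  exact ⟨pre, addr, fun z l => out z l.tail, H⟩

lemma Solves.mono {k n U U' S w t : ℕ} (H : Solves k n U S w t) (hU : U' ≤ U) :
    Solves k n U' S w t := by
  obtain ⟨pre, addr, out, H⟩ := H
  have hU' : (U' : ℤ) ≤ U := by exact_mod_cast hU
  refine ⟨pre, addr, out, fun A hA z h1 h2 => H A (fun a i => ⟨(hA a i).1, (hA a i).2.trans hU'⟩)
    z h1 (h2.trans ?_)⟩
  gcongr

lemma ev_log (C : ℝ) (hC : 0 < C) (r : ℕ) {c : ℝ} (hc : 0 < c) :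
    ∀ᶠ n : ℕ in atTop, C * ((Nat.log 2 n : ℝ) + 1) ^ r ≤ (n : ℝ) ^ c := by
  have h := (isLittleO_log_rpow_rpow_atTop (r : ℝ) hc).bound (c := 1 / (C * 3 ^ r))
    (by positivity)
  filter_upwards [tendsto_natCast_atTop_atTop.eventually h, eventually_ge_atTop 3] with n hn h3
  have hnR : (3 : ℝ) ≤ n := by exact_mod_cast h3
  have hl1 : 1 ≤ Real.log n := by
    rw [Real.le_log_iff_exp_le (by linarith)]
    exact Real.exp_one_lt_d9.le.trans (by linarith)
  have hl2 : (Nat.log 2 n : ℝ) ≤ 2 * Real.log n := by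
    have h1 : ((2 ^ Nat.log 2 n : ℕ) : ℝ) ≤ n := by
      exact_mod_cast Nat.pow_log_le_self 2 (by omega)
    have h2 := Real.log_le_log (by positivity) h1
    push_cast at h2
    rw [Real.log_pow] at h2
    have h4 := Real.log_two_gt_d9
    have h5 : (0 : ℝ) ≤ Nat.log 2 n := by positivity
    nlinarith
  rw [Real.norm_of_nonneg (by positivity), Real.norm_of_nonneg (by positivity), Real.rpow_natCast,
    one_div, ← div_eq_inv_mul, le_div_iff₀ (by positivity)] at hn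
  refine le_trans ?_ hn
  calc _ ≤ C * (3 * Real.log n) ^ r := by gcongr; linarith
    _ = _ := by rw [mul_pow]; ring

theorem main (k t : ℕ) (hk : 2 ≤ k) (ht : 1 ≤ t) (δ : ℝ) (hδ : 0 < δ) (hδ2 : δ ≤ 2) :
    ∀ᶠ n : ℕ in atTop, ∀ U S w : ℕ, 4 * n ^ k ≤ U →
      5 * ((t + 1) / 2 : ℕ) * (w : ℝ) ≤ δ * Real.logb 2 n → Solves k n U S w t →
        (n : ℝ) ^ ((k : ℝ) - δ) ≤ (S : ℝ) ^ ((t + 1) / 2) := by
  obtain ⟨k, rfl⟩ : ∃ k', k = k' + 1 := ⟨k - 1, by omega⟩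
  have hk0 : 0 < k := by omega
  have hkR : (0 : ℝ) < k := by exact_mod_cast hk0
  set h := (t + 1) / 2 with hh
  have hh1 : 1 ≤ h := by omega
  set A : ℕ := h * (k + 2) + 1 with hA
  filter_upwards [ev_log (256 * k * A) (by positivity) 1 (c := 1 / 5) (by norm_num),
    ev_log (8192 * k * (4 * A) ^ (k + 2)) (by positivity) (k + 2) (c := δ / 5) (by positivity),
    eventually_ge_atTop 1] with n e1 e2 hn U S w hU hw H
  have hnR : (1 : ℝ) ≤ n := by exact_mod_cast hn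
  have H2 : Solves (k + 1) n (4 * n ^ (k + 1)) S w (2 * h) := by
    rcases (by omega : 2 * h = t ∨ 2 * h = t + 1) with e | e <;> rw [e]
    · exact H.mono hU
    · exact (H.mono hU).succ
  by_cases hS : n ^ (k + 1) ≤ S
  · calc _ ≤ (n : ℝ) ^ ((k + 1 : ℕ) : ℝ) := Real.rpow_le_rpow_of_exponent_le hnR (by linarith)
      _ ≤ S := by rw [Real.rpow_natCast]; exact_mod_cast hS
      _ ≤ _ := le_self_pow₀ (by exact_mod_cast (Nat.one_le_pow _ _ hn).trans hS) (by omega)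
  set l := Nat.log 2 n with hl
  have hnl : n < 2 ^ (l + 1) := Nat.lt_pow_succ_log_self (by norm_num) n
  have hlog : Real.logb 2 n ≤ l + 1 := by
    rw [Real.logb_le_iff_le_rpow (by norm_num) (by linarith)]
    exact_mod_cast hnl.le
  have hlog0 : 0 ≤ Real.logb 2 n := Real.logb_nonneg (by norm_num) hnR
  have hwl : w ≤ l + 1 := by
    have h1 : (1 : ℝ) ≤ h := by exact_mod_cast hh1
    have h2 : (0 : ℝ) ≤ w := by positivity
    have : (w : ℝ) ≤ l + 1 := by nlinarith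
    exact_mod_cast this
  set X := 1 + h * ((k + 1) * (l + 1) + w) with hX
  have hX2 : 1 < X := by
    have : 0 < h * ((k + 1) * (l + 1) + w) := by positivity
    omega
  set i := Nat.clog 2 X with hi
  have hi1 : X ≤ 2 ^ i := Nat.le_pow_clog (by norm_num) X
  have hi2 : 2 ^ (i + 1) ≤ 4 * A * (l + 1) := by
    have h1 := Nat.pow_pred_clog_lt_self (b := 2) (by norm_num) hX2
    have h2 := Nat.clog_pos (b := 2) (by norm_num) hX2
    rw [← hi] at h1 h2
    have h3 : 2 ^ (i + 1) = 4 * 2 ^ i.pred := by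
      obtain ⟨j, hj⟩ : ∃ j, i = j + 1 := ⟨i - 1, by omega⟩
      rw [hj, Nat.pred_succ]; ring
    have h4 : X ≤ A * (l + 1) := by
      have : h * ((k + 1) * (l + 1) + w) ≤ h * ((k + 2) * (l + 1)) :=
        Nat.mul_le_mul_left _ (by nlinarith)
      rw [hX, hA]; nlinarith
    rw [h3, mul_assoc]; omega
  have hi3 : (2 : ℝ) ^ (i + 1) ≤ 4 * A * (l + 1) := by exact_mod_cast hi2
  have hW : ((2 : ℝ) ^ w) ^ h ≤ (n : ℝ) ^ (δ / 5) := by
    rw [← pow_mul, ← Real.rpow_natCast, ← Real.rpow_logb (b := 2) (x := n) (by norm_num)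
      (by norm_num) (by linarith), ← Real.rpow_mul (by norm_num)]
    refine Real.rpow_le_rpow_of_exponent_le (by norm_num) ?_
    push_cast
    linarith
  have key := finite_bound hk0 H2 i ?_ ?_
  · have h1 : (n : ℝ) ^ (k + 1) ≤
        8192 * k * (2 ^ (i + 1)) ^ (k + 2) * (((2 : ℝ) ^ w) ^ h) ^ 4 * S ^ h := by
      exact_mod_cast key
    have h2 : (8192 : ℝ) * k * (2 ^ (i + 1)) ^ (k + 2) ≤ (n : ℝ) ^ (δ / 5) := by
      refine le_trans ?_ e2
      calc _ ≤ (8192 : ℝ) * k * (4 * A * (l + 1)) ^ (k + 2) := by gcongr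
        _ = _ := by rw [mul_pow]; ring
    have h3 : (n : ℝ) ^ (k + 1) ≤ (n : ℝ) ^ δ * S ^ h := by
      refine h1.trans (mul_le_mul_of_nonneg_right ?_ (by positivity))
      calc _ ≤ (n : ℝ) ^ (δ / 5) * ((n : ℝ) ^ (δ / 5)) ^ 4 := by gcongr
        _ = ((n : ℝ) ^ (δ / 5)) ^ (5 : ℕ) := by ring
        _ = _ := by
          rw [← Real.rpow_natCast, ← Real.rpow_mul (by positivity)]
          congr 1
          push_cast
          ring
    rw [Real.rpow_sub (by linarith), Real.rpow_natCast, div_le_iff₀ (by positivity), mul_comm]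
    exact h3
  · have h1 : S ≤ 2 ^ ((k + 1) * (l + 1)) := by
      rw [mul_comm, pow_mul]
      exact (not_le.1 hS).le.trans (Nat.pow_le_pow_left hnl.le _)
    calc 2 * (S * 2 ^ w) ^ h ≤ 2 * (2 ^ ((k + 1) * (l + 1)) * 2 ^ w) ^ h := by gcongr
      _ = 2 ^ X := by rw [hX, ← pow_add, ← pow_mul, pow_add, pow_one, mul_comm h]
      _ ≤ _ := Nat.pow_le_pow_right (by norm_num) hi1
  · have h1 : (k : ℝ) * (64 * 2 ^ (i + 1) * (((2 : ℝ) ^ w) ^ h) ^ 2) ≤ n := by
      have h2 : (n : ℝ) ^ (δ / 5) ≤ (n : ℝ) ^ (2 / 5 : ℝ) :=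
        Real.rpow_le_rpow_of_exponent_le hnR (by linarith)
      have h3 := hW.trans h2
      calc _ ≤ (k : ℝ) * (64 * (4 * A * (l + 1)) * ((n : ℝ) ^ (2 / 5 : ℝ)) ^ 2) := by gcongr
        _ = 256 * k * A * ((l : ℝ) + 1) ^ 1 * ((n : ℝ) ^ (2 / 5 : ℝ)) ^ 2 := by ring
        _ ≤ (n : ℝ) ^ (1 / 5 : ℝ) * ((n : ℝ) ^ (2 / 5 : ℝ)) ^ 2 := by gcongr
        _ = n := by
          rw [← Real.rpow_natCast, ← Real.rpow_mul (by positivity),
            ← Real.rpow_add (by linarith)]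
          norm_num
    exact_mod_cast h1

end Pool.Agent.MP_5e38ef_lc
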