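import Pool.Agent.MP_5e38ef_lc.Core
import Pool.Agent.MP_5e38ef_lc.Defs

namespace Pool.Agent.MP_5e38ef_lc
open Finset

set_option linter.unusedSectionVars false

section Transcript
variable {S W h : ℕ}

/-- A two-part transcript as a sequence. -/
def ext (d : Fin W) (τ : Bool → Fin h → Fin W) (i : ℕ) : Fin W :=
  if hi : i < h then τ false ⟨i, hi⟩ else if hi' : i - h < h then τ true ⟨i - h, hi'⟩ else d

/-- Prefixes of a sequence, latest entry first. -/
def pref (f : ℕ → Fin W) : ℕ → List (Fin W)
  | 0 => []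
  | t + 1 => f t :: pref f t

/-- The position of an entry of a two-part transcript. -/
def pos (b : Bool) (i : Fin h) : ℕ := if b then h + i else i

lemma ext_pos (d : Fin W) (τ : Bool → Fin h → Fin W) (b : Bool) (i : Fin h) :
    ext d τ (pos b i) = τ b i := by
  cases b <;> simp [ext, pos]

lemma pos_lt (b : Bool) (i : Fin h) : pos b i < 2 * h := by
  have := i.2
  cases b <;> simp only [pos, Bool.false_eq_true, if_false, if_true] <;> omega

lemma exists_pos {t : ℕ} (ht : t < 2 * h) : ∃ b, ∃ i : Fin h, t = pos b i := by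
  by_cases h1 : t < h
  · exact ⟨false, ⟨t, h1⟩, by simp [pos]⟩
  · exact ⟨true, ⟨t - h, by omega⟩, by simp only [pos, if_true]; omega⟩

/-- One half of a transcript agrees with the memory. -/
def Cons (d : Fin W) (addr : List (Fin W) → Fin S) (M : Fin S → Fin W)
    (τ : Bool → Fin h → Fin W) (b : Bool) : Prop :=
  ∀ i, M (addr (pref (ext d τ) (pos b i))) = τ b i

lemma cons_uniq {d : Fin W} {addr : List (Fin W) → Fin S} {M : Fin S → Fin W}
    {τ τ' : Bool → Fin h → Fin W}
    (H : ∀ b, τ b = τ' b ∨ (Cons d addr M τ b ∧ Cons d addr M τ' b)) : τ = τ' := by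
  have key : ∀ t, t ≤ 2 * h → pref (ext d τ) t = pref (ext d τ') t := by
    intro t
    induction t with
    | zero => intro _; rfl
    | succ t ih =>
      intro ht
      obtain ⟨b, i, rfl⟩ := exists_pos (h := h) (t := t) (by omega)
      have h1 := ih (by omega)
      rw [pref, pref, h1, ext_pos, ext_pos]
      rcases H b with h2 | ⟨h2, h3⟩
      · rw [h2]
      · rw [← h2 i, ← h3 i, h1]
  funext b i
  have := key (pos b i + 1) (pos_lt b i)
  rw [pref, pref, ext_pos, ext_pos] at this
  exact (List.cons.inj this).1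

/-- The true transcript. -/
def tru (addr : List (Fin W) → Fin S) (M : Fin S → Fin W) : Bool → Fin h → Fin W :=
  fun b i => M (addr (reads addr M (pos b i)))

lemma pref_tru (d : Fin W) (addr : List (Fin W) → Fin S) (M : Fin S → Fin W) :
    ∀ t, t ≤ 2 * h → pref (ext d (tru (h := h) addr M)) t = reads addr M t := by
  intro t
  induction t with
  | zero => intro _; rfl
  | succ t ih =>
    intro ht
    obtain ⟨b, i, rfl⟩ := exists_pos (h := h) (t := t) (by omega)
    rw [pref, reads, ih (by omega), ext_pos]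
    rfl

lemma cons_tru (d : Fin W) (addr : List (Fin W) → Fin S) (M : Fin S → Fin W) (b : Bool) :
    Cons d addr M (tru (h := h) addr M) b := by
  intro i
  rw [pref_tru d addr M _ (pos_lt b i).le]
  rfl

end Transcript

theorem probe_bound {Z I C : Type} [Fintype Z] [DecidableEq Z] [Nonempty Z] [Fintype I]
    [DecidableEq I] [Fintype C] [DecidableEq C] {S W h m : ℕ} (hm : 0 < m) (hW : 0 < W)
    (cls : (I → Fin m) → Z → C) (addr : Z → List (Fin W) → Fin S)
    (out : Z → List (Fin W) → Bool) (Θ i : ℕ)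
    (hO : ∀ l : List Z, l.length < 2 ^ (i + 1) →
      ∃ O : Finset Z, O.card ≤ Θ ∧ ∀ z ∉ O, Fresh cls l z)
    (hcor : ∀ (s : I → Fin m) (g : C → Bool), ∃ M : Fin S → Fin W,
      ∀ z, out z (reads (addr z) M (2 * h)) = g (cls s z))
    {η : ℝ} (hη : ((2 ^ (i + 1) : ℕ) : ℝ) / m + Θ * S ^ h / Fintype.card Z ≤ η) (hη0 : 0 < η)
    (hη1 : η ≤ 1) :
    (1 / (2 * (W : ℝ) ^ h)) ^ 2 ^ (i + 1) ≤ 2 * ((S : ℝ) * W) ^ h * (4 * η) ^ 2 ^ i := by
  classical
  set d : Fin W := ⟨0, hW⟩
  have hS : 0 < S := Fin.pos (addr (Classical.arbitrary Z) [])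
  have hSR : (0 : ℝ) < S := by exact_mod_cast hS
  have hWR : (0 : ℝ) < W := by exact_mod_cast hW
  set N : ℝ := (Fintype.card Z : ℝ) with hN
  have hN0 : 0 < N := by rw [hN]; exact_mod_cast Fintype.card_pos
  let src : Z × (Bool → Fin h → Fin W) × Bool → Bool × (Fin h → Fin S × Fin W) := fun e =>
    (e.2.2, fun j => (addr e.1 (pref (ext d e.2.1) (pos e.2.2 j)), e.2.1 e.2.2 j))
  let rev : Z × (Bool → Fin h → Fin W) × Bool → Z × (Bool → Fin h → Fin W) × Bool := fun e =>
    (e.1, e.2.1, !e.2.2)
  have hcore := core hm cls src rev (fun e => by simp [rev]) Prod.fst (fun e => rfl)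
    (fun e => out e.1 (pref (ext d e.2.1) (2 * h))) (fun e => rfl) (N * W ^ h / S ^ h)
    (by positivity) (W ^ h) Θ i ?_ hO (η := η) ?_ hη0 hη1 (4 * N * W ^ h / (2 * W ^ h))
    (4 * N * W ^ h) (by positivity) ?_
  · refine le_trans (le_of_eq ?_) (hcore.trans (le_of_eq ?_))
    · congr 1
      field_simp
    · simp [Fintype.card_prod]
  · rintro ⟨b, x⟩ z
    have : (W ^ h) = (univ : Finset (Fin h → Fin W)).card := by simp
    rw [this]
    refine card_le_card_of_injOn (fun e => e.2.1 (!b)) (fun _ _ => mem_univ _) ?_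
    rintro ⟨z₁, τ₁, b₁⟩ h₁ ⟨z₂, τ₂, b₂⟩ h₂ h₃
    simp only [src, coe_filter, mem_univ, true_and, Set.mem_ofPred_eq, Prod.mk.injEq] at h₁ h₂ h₃
    obtain ⟨⟨rfl, h₁⟩, rfl⟩ := h₁
    obtain ⟨⟨rfl, h₂⟩, rfl⟩ := h₂
    have h₄ : τ₁ b₂ = τ₂ b₂ := by
      funext j
      have := congrFun (h₁.trans h₂.symm) j
      exact (Prod.mk.inj this).2
    have : τ₁ = τ₂ := by
      funext b
      by_cases hb : b = b₂
      · rw [hb, h₄]
      · rw [Bool.eq_not_iff.2 hb, h₃]
    rw [this]
  · refine le_trans (le_of_eq ?_) hη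
    push_cast
    field_simp
  · intro s g
    obtain ⟨M, hM⟩ := hcor s g
    let f : Bool × (Fin h → Fin S × Fin W) → ℝ := fun v =>
      if ∀ j, M (v.2 j).1 = (v.2 j).2 then 1 else 0
    have hf : ∀ e, f (src e) = if Cons d (addr e.1) M e.2.1 e.2.2 then 1 else 0 :=
      fun e => if_congr Iff.rfl rfl rfl
    have hff : ∀ v, f v * f v = f v := fun v => by simp only [f]; split_ifs <;> simp
    refine ⟨f, ?_, ?_⟩
    · simp only [mul_assoc, hff, add_mul]
      rw [sum_add_distrib, ← mul_sum]
      have h1 : ∑ x, ((univ.filter fun e => src e = x).card : ℝ) * f x = ∑ e, f (src e) := by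
        rw [← Finset.sum_fiberwise (s := univ) (g := src)]
        refine sum_congr rfl (fun x _ => ?_)
        rw [sum_congr rfl (g := fun _ => f x) (fun e he => by rw [(mem_filter.1 he).2])]
        simp
      have h2 : ∑ e, f (src e) ≤ 2 * N * W ^ h := by
        simp only [hf]
        rw [sum_boole]
        have : (univ.filter fun e : Z × (Bool → Fin h → Fin W) × Bool =>
            Cons d (addr e.1) M e.2.1 e.2.2).card ≤
            (univ : Finset (Z × (Fin h → Fin W) × Bool)).card := by
          refine card_le_card_of_injOn (fun e => (e.1, e.2.1 (!e.2.2), e.2.2))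
            (fun _ _ => mem_univ _) ?_
          rintro ⟨z₁, τ₁, b₁⟩ h₁ ⟨z₂, τ₂, b₂⟩ h₂ h₃
          simp only [coe_filter, mem_univ, true_and, Set.mem_ofPred_eq, Prod.mk.injEq] at h₁ h₂ h₃
          obtain ⟨rfl, h₃, rfl⟩ := h₃
          have : τ₁ = τ₂ := by
            refine cons_uniq (d := d) (addr := addr z₁) (M := M) (fun b => ?_)
            by_cases hb : b = b₁
            · rw [hb]; exact Or.inr ⟨h₁, h₂⟩
            · rw [Bool.eq_not_iff.2 hb]; exact Or.inl h₃
          rw [this]
        have h3 : ((univ : Finset (Z × (Fin h → Fin W) × Bool)).card : ℝ) = 2 * N * W ^ h := by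
          simp [Fintype.card_prod, hN]; ring
        rw [← h3]
        exact_mod_cast this
      have h3 : ∑ x, f x ≤ 2 * S ^ h := by
        simp only [f]
        rw [sum_boole]
        have : (univ.filter fun v : Bool × (Fin h → Fin S × Fin W) =>
            ∀ j, M (v.2 j).1 = (v.2 j).2).card ≤
            (univ : Finset (Bool × (Fin h → Fin S))).card := by
          refine card_le_card_of_injOn (fun v => (v.1, fun j => (v.2 j).1))
            (fun _ _ => mem_univ _) ?_
          rintro ⟨b₁, x₁⟩ h₁ ⟨b₂, x₂⟩ h₂ h₃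
          simp only [coe_filter, mem_univ, true_and, Set.mem_ofPred_eq, Prod.mk.injEq] at h₁ h₂ h₃
          obtain ⟨rfl, h₃⟩ := h₃
          congr 1
          funext j
          have h4 := congrFun h₃ j
          exact Prod.ext h4 (by rw [← h₁ j, ← h₂ j, h4])
        have h4 : ((univ : Finset (Bool × (Fin h → Fin S))).card : ℝ) = 2 * S ^ h := by
          simp [Fintype.card_prod]
        rw [← h4]
        exact_mod_cast this
      have h4 : N * W ^ h / S ^ h * ∑ x, f x ≤ 2 * N * W ^ h := by
        refine (mul_le_mul_of_nonneg_left h3 (by positivity)).trans (le_of_eq ?_)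
        field_simp
      rw [h1]
      linarith
    · have hterm : ∀ z τ b, sgn (out z (pref (ext d τ) (2 * h))) * sgn (g (cls s z)) *
          f (src (z, τ, b)) * f (src (rev (z, τ, b))) = if τ = tru (addr z) M then 1 else 0 := by
        intro z τ b
        rw [hf, hf]
        by_cases hτ : τ = tru (addr z) M
        · subst hτ
          simp only [rev, cons_tru, if_true, mul_one]
          rw [pref_tru d _ _ _ le_rfl, hM, sgn_mul_self]
        · rw [if_neg hτ]
          simp only [rev]
          split_ifs with h1 h2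
          · refine (hτ (cons_uniq (d := d) (addr := addr z) (M := M) (fun b' => Or.inr
              ⟨?_, cons_tru d _ _ _⟩))).elim
            by_cases hb : b' = b
            · rw [hb]; exact h1
            · rw [Bool.eq_not_iff.2 hb]; exact h2
          all_goals simp
      rw [Fintype.sum_prod_type]
      simp only [Fintype.sum_prod_type, hterm]
      simp only [Fintype.sum_bool, sum_add_distrib, sum_ite_eq', mem_univ, if_true, sum_const,
        card_univ, nsmul_eq_mul, ← hN]
      refine le_of_eq ?_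
      field_simp
      norm_num

end Pool.Agent.MP_5e38ef_lc
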