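import Mathlib

namespace Pool.Agent.MP_5e38ef_lc
open Finset

set_option linter.unusedSectionVars false

variable {V E : Type} [Fintype V] [DecidableEq V] [Fintype E]

/-- One step of the signed, normalised walk operator. -/
noncomputable def opT (src : E → V) (rev : E → E) (d : V → ℝ) (β : E → ℝ) (f : V → ℝ) : V → ℝ :=
  fun x => ∑ e ∈ univ.filter (fun e => src e = x), β e * f (src (rev e)) / d x

/-- The weighted inner product. -/
noncomputable def ip (d : V → ℝ) (f g : V → ℝ) : ℝ := ∑ x, d x * f x * g x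

lemma ip_comm (d f g : V → ℝ) : ip d f g = ip d g f := by
  unfold ip; exact sum_congr rfl (fun x _ => by ring)

lemma ip_cs (d : V → ℝ) (hd : ∀ x, 0 < d x) (f g : V → ℝ) :
    ip d f g ^ 2 ≤ ip d f f * ip d g g := by
  unfold ip
  refine Finset.sum_sq_le_sum_mul_sum_of_sq_le_mul _ (fun x _ => ?_) (fun x _ => ?_)
    (fun x _ => le_of_eq (by ring))
  · have := hd x; rw [mul_assoc]; exact mul_nonneg this.le (mul_self_nonneg _)
  · have := hd x; rw [mul_assoc]; exact mul_nonneg this.le (mul_self_nonneg _)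

lemma ip_nonneg (d : V → ℝ) (hd : ∀ x, 0 < d x) (f : V → ℝ) : 0 ≤ ip d f f := by
  unfold ip
  refine sum_nonneg (fun x _ => ?_)
  have := hd x; rw [mul_assoc]; exact mul_nonneg this.le (mul_self_nonneg _)

lemma ip_opT (src : E → V) (rev : E → E) (d : V → ℝ) (hd : ∀ x, 0 < d x) (β : E → ℝ)
    (f g : V → ℝ) :
    ip d f (opT src rev d β g) = ∑ e, β e * f (src e) * g (src (rev e)) := by
  unfold ip opT
  rw [← Finset.sum_fiberwise (s := univ) (g := src)]
  refine sum_congr rfl (fun x _ => ?_)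
  rw [mul_sum]
  refine sum_congr rfl (fun e he => ?_)
  rw [(mem_filter.1 he).2]
  have := (hd x).ne'
  field_simp

lemma ip_adj (src : E → V) (rev : E → E) (hrev : Function.Involutive rev) (d : V → ℝ)
    (hd : ∀ x, 0 < d x) (β : E → ℝ) (hβ : ∀ e, β (rev e) = β e) (f g : V → ℝ) :
    ip d (opT src rev d β f) g = ip d f (opT src rev d β g) := by
  rw [ip_comm, ip_opT src rev d hd, ip_opT src rev d hd,
    ← Equiv.sum_comp hrev.toPerm]
  refine sum_congr rfl (fun e _ => ?_)
  simp only [Function.Involutive.coe_toPerm, hrev e, hβ]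
  ring

lemma ip_adj_iter (src : E → V) (rev : E → E) (hrev : Function.Involutive rev) (d : V → ℝ)
    (hd : ∀ x, 0 < d x) (β : E → ℝ) (hβ : ∀ e, β (rev e) = β e) (j : ℕ) :
    ∀ f g : V → ℝ, ip d ((opT src rev d β)^[j] f) g = ip d f ((opT src rev d β)^[j] g) := by
  induction j with
  | zero => intro f g; rfl
  | succ j ih =>
    intro f g
    rw [Function.iterate_succ_apply', ip_adj src rev hrev d hd β hβ, ih,
      Function.iterate_succ_apply]

lemma ip_single (d : V → ℝ) (f : V → ℝ) (x : V) : ip d f (Pi.single x 1) = d x * f x := by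
  unfold ip
  rw [sum_eq_single x]
  · simp
  · intro y _ hy; simp [hy]
  · simp

/-- The quadratic form is bounded by the trace of an even power. -/
theorem spectral (src : E → V) (rev : E → E) (hrev : Function.Involutive rev) (d : V → ℝ)
    (hd : ∀ x, 0 < d x) (β : E → ℝ) (hβ : ∀ e, β (rev e) = β e) (f : V → ℝ) (B K : ℝ)
    (hB : 0 < B) (hK : ∑ x, d x * f x * f x ≤ K)
    (hf : B ≤ ∑ e, β e * f (src e) * f (src (rev e))) (i : ℕ) :
    (B / K) ^ 2 ^ (i + 1) ≤ ∑ x, (opT src rev d β)^[2 ^ (i + 1)] (Pi.single x 1) x := by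
  set T := opT src rev d β with hT
  have hadj := ip_adj_iter src rev hrev d hd β hβ
  have hf' : B ≤ ip d f (T f) := by rw [hT, ip_opT src rev d hd]; exact hf
  set P := ip d f f with hP
  have hP0 : 0 ≤ P := ip_nonneg d hd f
  have hPK : P ≤ K := hK
  have hPpos : 0 < P := by
    rcases hP0.lt_or_eq with h | h
    · exact h
    · have := ip_cs d hd f (T f)
      rw [← hP, ← h] at this
      nlinarith
  have hKpos : 0 < K := hPpos.trans_le hPK
  have hdouble : ∀ j, ip d f (T^[j + j] f) = ip d (T^[j] f) (T^[j] f) := by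
    intro j
    rw [Function.iterate_add_apply, hadj]
  have hpow : ∀ i : ℕ, (B / P) ^ 2 ^ i * P ≤ ip d f (T^[2 ^ i] f) := by
    intro i
    induction i with
    | zero => simp only [pow_zero, pow_one, Function.iterate_one]; rwa [div_mul_cancel₀ _ hPpos.ne']
    | succ i ih =>
      rw [pow_succ 2 i, mul_two, hdouble]
      have h1 := ip_cs d hd f (T^[2 ^ i] f)
      rw [← hP] at h1
      have h2 : 0 ≤ (B / P) ^ 2 ^ i * P := by positivity
      have h3 := pow_le_pow_left₀ h2 ih 2
      rw [pow_add]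
      have h4 : ((B / P) ^ 2 ^ i * (B / P) ^ 2 ^ i * P) * P ≤
          ip d (T^[2 ^ i] f) (T^[2 ^ i] f) * P := by nlinarith
      exact le_of_mul_le_mul_right h4 hPpos
  have htr : ip d f (T^[2 ^ (i + 1)] f) ≤ (∑ x, T^[2 ^ (i + 1)] (Pi.single x 1) x) * P := by
    rw [pow_succ 2 i, mul_two, hdouble, sum_mul]
    unfold ip
    refine sum_le_sum (fun x _ => ?_)
    have h1 : d x * T^[2 ^ i] f x = ip d f (T^[2 ^ i] (Pi.single x 1)) := by
      rw [← ip_single, hadj]
    have h2 := ip_cs d hd f (T^[2 ^ i] (Pi.single x 1))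
    have h3 : ip d (T^[2 ^ i] (Pi.single x 1)) (T^[2 ^ i] (Pi.single x 1)) =
        d x * T^[2 ^ i + 2 ^ i] (Pi.single x 1) x := by
      rw [hadj, ← Function.iterate_add_apply, ip_comm, ip_single]
    rw [← h1, h3, ← hP] at h2
    have hx := hd x
    have h4 : d x * (d x * T^[2 ^ i] f x * T^[2 ^ i] f x) ≤
        d x * (T^[2 ^ i + 2 ^ i] (Pi.single x 1) x * P) := by nlinarith
    exact le_of_mul_le_mul_left h4 hx
  have h5 := le_of_mul_le_mul_right ((hpow (i + 1)).trans htr) hPpos
  refine le_trans (pow_le_pow_left₀ (by positivity) ?_ _) h5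
  exact div_le_div_of_nonneg_left hB.le hPpos hPK

/-- Weighted sums over walks. -/
noncomputable def ws (src : E → V) (rev : E → E) (d : V → ℝ) (F : V → List E → ℝ) :
    ℕ → V → List E → ℝ
  | 0, x, l => F x l
  | q + 1, x, l => ∑ e ∈ univ.filter (fun e => src e = x),
      ws src rev d F q (src (rev e)) (e :: l) / d x

lemma ws_opT (src : E → V) (rev : E → E) (d : V → ℝ) (β : E → ℝ) (f : V → ℝ) (q : ℕ) :
    ∀ x l, (List.map β l).prod * (opT src rev d β)^[q] f x =
      ws src rev d (fun y l' => (List.map β l').prod * f y) q x l := by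
  induction q with
  | zero => intro x l; rfl
  | succ q ih =>
    intro x l
    rw [Function.iterate_succ_apply', ws, opT, mul_sum]
    refine sum_congr rfl (fun e _ => ?_)
    rw [← ih, List.map_cons, List.prod_cons]
    ring

lemma ws_sum {Ω : Type} [Fintype Ω] (src : E → V) (rev : E → E) (d : V → ℝ)
    (F : Ω → V → List E → ℝ) (q : ℕ) :
    ∀ x l, ∑ ω, ws src rev d (F ω) q x l = ws src rev d (fun y l' => ∑ ω, F ω y l') q x l := by
  induction q with
  | zero => intro x l; rfl
  | succ q ih =>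
    intro x l
    simp only [ws]
    rw [sum_comm]
    refine sum_congr rfl (fun e _ => ?_)
    rw [← ih, sum_div]

lemma ws_le (src : E → V) (rev : E → E) (d : V → ℝ) (hd : ∀ x, 0 < d x) (F : V → List E → ℝ)
    (Φ : List E → ℝ) (Q : ℕ) (κ : ℝ) (hκ : 0 ≤ κ)
    (h1 : ∀ y l, l.length = Q → F y l ≤ Φ l)
    (h2 : ∀ x l, l.length < Q →
      ∑ e ∈ univ.filter (fun e => src e = x), Φ (e :: l) / d x ≤ κ * Φ l) (q : ℕ) :
    ∀ x l, l.length + q = Q → ws src rev d F q x l ≤ κ ^ q * Φ l := by
  induction q with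
  | zero => intro x l hl; simpa [ws] using h1 x l hl
  | succ q ih =>
    intro x l hl
    rw [ws]
    calc _ ≤ ∑ e ∈ univ.filter (fun e => src e = x), κ ^ q * (Φ (e :: l) / d x) := by
          refine sum_le_sum (fun e _ => ?_)
          rw [← mul_div_assoc]
          exact div_le_div_of_nonneg_right (ih _ _ (by simp; omega)) (hd x).le
      _ ≤ κ ^ q * (κ * Φ l) := by
          rw [← mul_sum]
          exact mul_le_mul_of_nonneg_left (h2 x l (by omega)) (by positivity)
      _ = _ := by ring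

end Pool.Agent.MP_5e38ef_lc
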